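import Mathlib
import Pool.Agent.Helper45.Umd.Final
set_option autoImplicit false

/-!
# A positive contraction semigroup on a UMD Banach lattice without a loose dilation in UMD spaces

The Banach lattice is `ℓ² ⊕ ℓ²` with the equivalent lattice norm `x ↦ sup_{t ≥ 0} ‖T t |x|‖`, for a
bounded positive `C₀`-semigroup `T` on `ℓ² ⊕ ℓ²` for which it is contractive. If `T` had a loose
dilation in a UMD space then certain polynomials of `T 1` would be uniformly bounded, by an
argument with the vector-valued Hilbert transform averaged over the rotations of the nodes of the
4-adic tree; they are not.
-/

namespace Pool.Agent.Results.MP_040564_an.NoLooseDilation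

open Pool.Agent.Helper45.Umd

/-- the Banach lattice of the example -/
noncomputable def exampleLattice : ComplexBanachLattice where
  E := Ren ℝ
  X := Ren ℂ
  ι := iota
  isComplexification := iota_isComplexification

/-- **Negative answer.** There are a UMD Banach lattice and a `C₀`-semigroup of positive
contractions on it which has no loose dilation in the class of all UMD spaces. -/
theorem result.{u} : ∃ (L : ComplexBanachLattice) (T : ℝ → L.X →L[ℂ] L.X),
    IsUMD L.X ∧ IsPositiveContractionSemigroup L T ∧ ¬ HasLooseDilationInUMD.{u} T := by
  refine ⟨exampleLattice, TR (𝕜 := ℂ), ren_isUMD, ?_, ?_⟩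
  · exact
      { semigroup :=
          { zero := TR_zero
            add := fun s t hs ht x => TR_add hs ht x
            continuous := TR_continuousOn }
        contraction := fun t ht => ContinuousLinearMap.opNorm_le_bound _ zero_le_one fun x => by
          rw [one_mul]
          exact TR_norm_le ht x
        positive := fun t ht a ha => TR_positive ht a ha }
  · rintro ⟨Y, _, _, _, hY, hd⟩
    exact no_dilation hY hd

end Pool.Agent.Results.MP_040564_an.NoLooseDilation
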